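import Mathlib

set_option autoImplicit false

namespace Pool.Agent.H.MP_9fe7bd_lc

open Equiv

variable {d r : ℕ}

def SelfSimilar (G : Subgroup (Perm (List (Fin d)))) : Prop :=
  ∀ g ∈ G, ∀ x, ∃ y, ∃ h ∈ G, ∀ w, g (x :: w) = y :: h w

def Contracting (G : Subgroup (Perm (List (Fin d)))) : Prop :=
  ∃ N : Set (Perm (List (Fin d))), N.Finite ∧ N ⊆ G ∧
    ∀ g ∈ G, ∃ n : ℕ, ∀ v : List (Fin d), n ≤ v.length → ∃ h ∈ N, ∀ w, g (v ++ w) = g v ++ h w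

/-- `g` maps the ray `η` to the ray `ζ` -/
def Mv (g : Perm (List (Fin d))) (η ζ : Stream' (Fin d)) : Prop := ∀ n, g (η.take n) = ζ.take n

/-- vertices of the Schreier graph of the ray `ξ` -/
def Vx (S : Fin r → Perm (List (Fin d))) (ξ : Stream' (Fin d)) : Type :=
  {η : Stream' (Fin d) // ∃ g ∈ Subgroup.closure (Set.range S), Mv g ξ η}

def DominoDecidable (S : Fin r → Perm (List (Fin d))) (ξ : Stream' (Fin d)) : Prop :=
  ComputablePred fun I : ℕ × List (List (ℕ × ℕ)) => ∃ τ : Vx S ξ → ℕ, (∀ v, τ v < I.1) ∧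
    ∀ s v w, Mv (S s) v.1 w.1 → (τ v, τ w) ∈ I.2.getD s []

/-- monadic second-order formulas with `n` point variables and `m` set variables -/
inductive Fm (r : ℕ) : ℕ → ℕ → Type
  | edge {n m : ℕ} (s : Fin r) (i j : Fin n) : Fm r n m
  | eq {n m : ℕ} (i j : Fin n) : Fm r n m
  | mem {n m : ℕ} (i : Fin n) (j : Fin m) : Fm r n m
  | not {n m : ℕ} (φ : Fm r n m) : Fm r n m
  | and {n m : ℕ} (φ ψ : Fm r n m) : Fm r n m
  | exP {n m : ℕ} (φ : Fm r (n + 1) m) : Fm r n m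
  | exS {n m : ℕ} (φ : Fm r n (m + 1)) : Fm r n m

def Fm.Sat {V : Type} (E : Fin r → V → V → Prop) : {n m : ℕ} → Fm r n m → (Fin n → V) → (Fin m → Set V) → Prop
  | _, _, .edge s i j, x, _ => E s (x i) (x j)
  | _, _, .eq i j, x, _ => x i = x j
  | _, _, .mem i j, x, Y => x i ∈ Y j
  | _, _, .not φ, x, Y => ¬ φ.Sat E x Y
  | _, _, .and φ ψ, x, Y => φ.Sat E x Y ∧ ψ.Sat E x Y
  | _, _, .exP φ, x, Y => ∃ v, φ.Sat E (Fin.cons v x) Y
  | _, _, .exS φ, x, Y => ∃ Z, φ.Sat E x (Fin.cons Z Y)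

def Fm.code : {n m : ℕ} → Fm r n m → ℕ
  | _, _, .edge s i j => Nat.pair 0 (Nat.pair s (Nat.pair i j))
  | _, _, .eq i j => Nat.pair 1 (Nat.pair i j)
  | _, _, .mem i j => Nat.pair 2 (Nat.pair i j)
  | _, _, .not φ => Nat.pair 3 φ.code
  | _, _, .and φ ψ => Nat.pair 4 (Nat.pair φ.code ψ.code)
  | _, _, .exP φ => Nat.pair 5 φ.code
  | _, _, .exS φ => Nat.pair 6 φ.code

def MSODecidable (S : Fin r → Perm (List (Fin d))) (ξ : Stream' (Fin d)) : Prop :=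
  ComputablePred fun c : ℕ => ∃ φ : Fm r 0 0, φ.code = c ∧
    φ.Sat (fun s (v w : Vx S ξ) => Mv (S s) v.1 w.1) Fin.elim0 Fin.elim0

end Pool.Agent.H.MP_9fe7bd_lc
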