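import Mathlib
import Pool.Agent.H.MP_9fe7bd_lc.Defs
import Pool.Agent.H.MP_e16db3_al.A

set_option autoImplicit false

namespace Pool.Agent.H.MP_9fe7bd_lc

open Equiv FreeGroup Pool.Agent.H.MP_e16db3_al Filter Stream'

section gen
variable {X S : Type} (R : Rec X S) (h1 : ∀ a x, (R.s1 a x).length ≤ 1)
  (uq : ∀ a c x, R.s1 a x ≠ [] → R.s1 c x ≠ [] → R.ev (R.s1 a x) = R.ev (R.s1 c x))
include h1 uq

theorem half : ∀ (g : List (S × Bool)) (x : X), ∃ h, R.ev h = R.ev (R.sec g x) ∧ h.length ≤ (g.length + 1) / 2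
  | [], _ => ⟨[], rfl, by simp⟩
  | [a], x => ⟨R.s1 a x, by simp [Rec.sec, Rec.out], by simpa using h1 a x⟩
  | List.cons a (List.cons c g), x => by
    obtain ⟨h, h2, h3⟩ := half g x
    have l : ((List.cons a (List.cons c g)).length + 1) / 2 = (g.length + 1) / 2 + 1 := by simp only [List.length_cons]; omega
    simp only [Rec.sec, Rec.out, Perm.mul_apply, Rec.ev_append, ← h2, l]
    generalize R.out g x = y
    by_cases e1 : R.s1 a (R.o1 c y) = []
    · have := h1 c y
      exact ⟨R.s1 c y ++ h, by rw [e1, Rec.ev_append, Rec.ev_nil, one_mul], by rw [List.length_append]; omega⟩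
    by_cases e2 : R.s1 c y = []
    · have := h1 a (R.o1 c y)
      exact ⟨R.s1 a (R.o1 c y) ++ h, by rw [e2, Rec.ev_append, Rec.ev_nil, one_mul], by rw [List.length_append]; omega⟩
    have := uq a (c.1, !c.2) _ e1 (by rw [Rec.s1_not]; simpa [invRev] using e2)
    exact ⟨h, by rw [this, Rec.s1_not, Rec.ev_inv, inv_mul_cancel_left], by omega⟩

theorem shr (v : List X) (g : List (S × Bool)) :
    ∃ h, R.ev (R.secs g v) = R.ev h ∧ h.length ≤ max 1 (g.length - v.length) := by
  induction v generalizing g with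
  | nil => exact ⟨g, rfl, by simp⟩
  | cons x v ih =>
    obtain ⟨h, h2, h3⟩ := half R h1 uq g x
    obtain ⟨k, k1, k2⟩ := ih h
    exact ⟨k, (R.secs_congr h2.symm v).trans k1, by simp only [List.length_cons]; omega⟩

end gen

def car : Fin 2 → Fin 4 := ![2, 1]

def pi : Fin 2 → Perm (Fin 4) := ![⟨![1, 2, 0, 3], ![2, 0, 1, 3], by decide, by decide⟩, swap 2 3]

def R : Rec (Fin 4) (Fin 2) := ⟨pi, fun s x => if x = car s then [(s, true)] else []⟩

def S (s : Fin 2) : Perm (List (Fin 4)) := R.ev [(s, true)]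

theorem S_cons (s x w) : S s (x :: w) = pi s x :: if x = car s then S s w else w := by
  rw [S, R.rl1]
  simp only [R]
  split_ifs
  · rfl
  · simp

theorem S_nil (s) : S s [] = [] := rfl

theorem mem_G (g) : g ∈ Subgroup.closure (Set.range S) ↔ ∃ w, R.ev w = g := by
  constructor
  · intro h
    induction h using Subgroup.closure_induction with
    | mem x h => obtain ⟨s, rfl⟩ := h; exact ⟨_, rfl⟩
    | one => exact ⟨[], R.ev_nil⟩
    | mul x y _ _ a b => obtain ⟨u, rfl⟩ := a; obtain ⟨v, rfl⟩ := b; exact ⟨u ++ v, R.ev_append _ _⟩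
    | inv x _ a => obtain ⟨u, rfl⟩ := a; exact ⟨_, R.ev_inv u⟩
  · rintro ⟨w, rfl⟩
    induction w with
    | nil => simp
    | cons a w ih =>
      rw [Rec.ev_cons]
      refine mul_mem ?_ ih
      obtain ⟨s, _ | _⟩ := a
      · rw [Rec.ev_false]; exact inv_mem (Subgroup.subset_closure ⟨s, rfl⟩)
      · exact Subgroup.subset_closure ⟨s, rfl⟩

theorem selfSim : SelfSimilar (Subgroup.closure (Set.range S)) := fun g hg x => by
  obtain ⟨w, rfl⟩ := (mem_G g).1 hg
  exact ⟨_, _, (mem_G _).2 ⟨_, rfl⟩, R.rl w x⟩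

theorem bb (w) : S 1 (S 1 w) = w := by
  induction w with
  | nil => rfl
  | cons x w ih => rw [S_cons, S_cons]; fin_cases x <;> simp [pi, car, ih, swap_apply_of_ne_of_ne]

theorem act_app (g v w) : R.act g (v ++ w) = R.act g v ++ R.act (R.secs g v) w := by
  induction v generalizing g with
  | nil => rfl
  | cons x v ih => simp [Rec.act, Rec.secs, ih]

theorem contr : Contracting (Subgroup.closure (Set.range S)) := by
  refine ⟨R.ev '' {h | h.length ≤ 1}, (List.finite_length_le _ 1).image _, ?_, fun g hg => ?_⟩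
  · rintro _ ⟨h, -, rfl⟩
    exact (mem_G _).2 ⟨h, rfl⟩
  obtain ⟨w, rfl⟩ := (mem_G g).1 hg
  refine ⟨w.length, fun v hv => ?_⟩
  have uq : ∀ a c x, R.s1 a x ≠ [] → R.s1 c x ≠ [] → R.ev (R.s1 a x) = R.ev (R.s1 c x) := fun a c x h1 h2 => by
    have k : ∀ a c x, R.s1 a x ≠ [] → R.s1 c x ≠ [] → R.s1 a x = R.s1 c x ∨
      (R.s1 a x = [(1, true)] ∧ R.s1 c x = [(1, false)]) ∨ (R.s1 a x = [(1, false)] ∧ R.s1 c x = [(1, true)]) := by decide
    have e : R.ev [(1, false)] = R.ev [(1, true)] := by
      rw [Rec.ev_false]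
      exact inv_eq_of_mul_eq_one_right (Equiv.ext bb)
    rcases k a c x h1 h2 with h | ⟨h, h'⟩ | ⟨h, h'⟩
    · rw [h]
    · rw [h, h', e]
    · rw [h, h', e]
  obtain ⟨h, a, b⟩ := shr R (by decide) uq v w
  exact ⟨_, ⟨h, b.trans (by omega), rfl⟩, fun u => by rw [← a]; exact act_app _ _ _⟩

def img (g : List (Fin 2 × Bool)) (ξ : Stream' (Fin 4)) : Stream' (Fin 4) := fun n => R.out (R.secs g (ξ.take n)) (ξ.get n)

theorem img_cons (g x ξ) : img g (x :: ξ) = R.out g x :: img (R.sec g x) ξ := funext fun n => by cases n <;> rfl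

theorem take_img (n g ξ) : (img g ξ).take n = R.ev g (ξ.take n) := by
  induction n generalizing g ξ with
  | zero => rfl
  | succ n ih => rw [← ξ.eta, img_cons, take_succ_cons, take_succ_cons, ih, R.rl]

theorem mv_iff (g η ζ) : Mv (R.ev g) η ζ ↔ img g η = ζ :=
  ⟨fun h => take_theorem _ _ fun n => (take_img n g η).trans (h n), fun h n => h ▸ (take_img n g η).symm⟩

theorem img_append (g h ξ) : img (g ++ h) ξ = img g (img h ξ) :=
  take_theorem _ _ fun n => by rw [take_img, take_img, take_img, Rec.ev_append]; rfl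

theorem img_nil (ξ) : img [] ξ = ξ := take_theorem _ _ fun n => by simp [take_img]

def T (s : Fin 2) : Stream' (Fin 4) → Stream' (Fin 4) := img [(s, true)]

theorem mv_S (s η ζ) : Mv (S s) η ζ ↔ T s η = ζ := mv_iff _ _ _

theorem take_T (n s ξ) : (T s ξ).take n = S s (ξ.take n) := take_img _ _ _

theorem T_cons (s x η) : T s (x :: η) = pi s x :: if x = car s then T s η else η := by
  rw [T, img_cons]
  simp only [Rec.out, Rec.sec, Rec.o1, Rec.s1, R, if_true, mul_one, Perm.one_apply, List.append_nil]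
  split_ifs
  · rfl
  · rw [img_nil]

def Orb (ξ η : Stream' (Fin 4)) : Prop := ∃ g ∈ Subgroup.closure (Set.range S), Mv g ξ η

theorem orb_iff (ξ η) : Orb ξ η ↔ ∃ w, img w ξ = η :=
  ⟨fun ⟨g, hg, h⟩ => by obtain ⟨w, rfl⟩ := (mem_G g).1 hg; exact ⟨w, (mv_iff _ _ _).1 h⟩,
    fun ⟨w, h⟩ => ⟨_, (mem_G _).2 ⟨w, rfl⟩, (mv_iff _ _ _).2 h⟩⟩

theorem orb_refl (ξ) : Orb ξ ξ := (orb_iff _ _).2 ⟨[], img_nil ξ⟩

theorem TT (s η) : T s (img [(s, false)] η) = η ∧ img [(s, false)] (T s η) = η :=
  ⟨take_theorem _ _ fun n => by simp [take_T, take_img, Rec.ev_false, S],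
    take_theorem _ _ fun n => by simp [take_T, take_img, Rec.ev_false, S]⟩

theorem orb_T (ξ s η) : Orb ξ (T s η) ↔ Orb ξ η := by
  simp only [orb_iff]
  exact ⟨fun ⟨w, h⟩ => ⟨[(s, false)] ++ w, by rw [img_append, h, (TT s η).2]⟩,
    fun ⟨w, h⟩ => ⟨[(s, true)] ++ w, by rw [img_append, h, T]⟩⟩

theorem orb_ind {P : Stream' (Fin 4) → Prop} (H : ∀ s η, P (T s η) ↔ P η) {ξ η} (h : Orb ξ η) : P ξ ↔ P η := by
  obtain ⟨w, rfl⟩ := (orb_iff _ _).1 h
  clear h
  induction w with
  | nil => rw [img_nil]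
  | cons a w ih =>
    rw [ih, ← List.singleton_append, img_append]
    obtain ⟨s, _ | _⟩ := a
    · rw [← H s (img [(s, false)] _), (TT s _).1]
    · exact (H s _).symm

theorem T_rep (s n η) : T s (List.replicate n (car s) ++ₛ η) = List.replicate n (pi s (car s)) ++ₛ T s η := by
  induction n with
  | zero => rfl
  | succ n ih => simp only [List.replicate_succ, cons_append_stream, T_cons, if_true, ih]

theorem T_app (s w η) (h : w ≠ List.replicate w.length (car s)) : T s (w ++ₛ η) = S s w ++ₛ η := by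
  induction w with
  | nil => simp at h
  | cons x w ih =>
    rw [cons_append_stream, T_cons, S_cons, cons_append_stream]
    split_ifs with e
    · rw [ih fun c => h (by rw [List.length_cons, List.replicate_succ, ← c, e])]
    · rfl

theorem S_rep (s n u) : S s (List.replicate n (car s) ++ u) = List.replicate n (pi s (car s)) ++ S s u := by
  induction n with
  | zero => rfl
  | succ n ih => simp only [List.replicate_succ, List.cons_append, S_cons, if_true, ih]

theorem S_app (s w u) (h : w ≠ List.replicate w.length (car s)) : S s (w ++ u) = S s w ++ u := by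
  induction w with
  | nil => simp at h
  | cons x w ih =>
    rw [List.cons_append, S_cons, S_cons, List.cons_append]
    split_ifs with e
    · rw [ih fun c => h (by rw [List.length_cons, List.replicate_succ, ← c, e])]
    · rfl

theorem S_len (s w) : (S s w).length = w.length := by
  induction w with
  | nil => rfl
  | cons x w ih => rw [S_cons]; split_ifs <;> simp [ih]

theorem take_const (n) (x : Fin 4) : (const x).take n = List.replicate n x := by
  induction n with
  | zero => rfl
  | succ n ih => rw [const_eq, take_succ_cons, ih, List.replicate_succ]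

theorem rep_const (n) (x : Fin 4) : List.replicate n x ++ₛ const x = const x := by
  rw [← take_const]
  nth_rewrite 2 [← drop_const n x]
  exact append_take_drop _ _

theorem T_const (s) : T s (const (car s)) = const (pi s (car s)) := take_theorem _ _ fun n => by
  simpa [take_T, take_const, S_nil] using S_rep s n []

theorem ne_rep {η : Stream' (Fin 4)} {x} (h : η ≠ const x) : ∀ᶠ n in atTop, η.take n ≠ List.replicate n x := by
  obtain ⟨i, hi⟩ := Function.ne_iff.1 h
  refine eventually_atTop.2 ⟨i + 1, fun n hn e => hi ?_⟩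
  have := congrArg (·[i]?) e
  rw [getElem?_take (by omega)] at this
  exact show η.get i = x by simpa [List.getElem?_replicate, show i < n by omega] using this

theorem app_ev (w : List (Fin 4)) (η : Stream' (Fin 4)) : (w ++ₛ η.drop w.length) =ᶠ[atTop] η :=
  eventually_atTop.2 ⟨w.length, fun n hn => by
    obtain ⟨k, rfl⟩ := Nat.exists_eq_add_of_le hn
    exact (get_append_right k w _).trans (get_drop _ _ _)⟩

theorem T_ev (s η) (h : η ≠ const (car s)) : T s η =ᶠ[atTop] η := by
  obtain ⟨n, hn⟩ := (ne_rep h).exists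
  have := T_app s (η.take n) (η.drop n) (by simpa using hn)
  rw [append_take_drop] at this
  rw [this]
  simpa [S_len] using app_ev (S s (η.take n)) η

theorem conn (ξ) (n : ℕ) : ∀ (ζ) (w w' : List (Fin 4)), w.length = n → w'.length = n → Orb ξ (w ++ₛ ζ) → Orb ξ (w' ++ₛ ζ) := by
  induction n with
  | zero => intro ζ w w' h h'; rw [List.length_eq_zero_iff.1 h, List.length_eq_zero_iff.1 h']; exact id
  | succ n ih =>
    intro ζ w w' h h'
    obtain rfl | ⟨u, x, rfl⟩ := w.eq_nil_or_concat'
    · simp at h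
    obtain rfl | ⟨u', x', rfl⟩ := w'.eq_nil_or_concat'
    · simp at h'
    have k : ∀ s x, x ≠ car s → (Orb ξ (List.replicate n 0 ++ₛ x :: ζ) ↔ Orb ξ (List.replicate n 0 ++ₛ pi s x :: ζ)) := fun s x e => by
      have := orb_T ξ s (List.replicate n (car s) ++ₛ x :: ζ)
      rw [T_rep, T_cons, if_neg e] at this
      exact ⟨fun a => ih _ _ _ (by simp) (by simp) (this.2 (ih _ _ _ (by simp) (by simp) a)),
        fun a => ih _ _ _ (by simp) (by simp) (this.1 (ih _ _ _ (by simp) (by simp) a))⟩
    have k0 : _ ↔ Orb ξ (_ ++ₛ 1 :: ζ) := k 0 0 (by decide)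
    have k1 : _ ↔ Orb ξ (_ ++ₛ 2 :: ζ) := k 0 1 (by decide)
    have k2 : _ ↔ Orb ξ (_ ++ₛ 3 :: ζ) := k 1 2 (by decide)
    rw [append_append_stream, append_append_stream]
    intro a
    replace a := ih _ _ (List.replicate n 0) (by simpa using h) (by simp) a
    refine ih _ (List.replicate n 0) _ (by simp) (by simpa using h') ?_
    fin_cases x <;> fin_cases x' <;> simp only [append_eq_cons] at a ⊢ <;> tauto

theorem orb_ev {ξ η ζ : Stream' (Fin 4)} (h : Orb ξ η) (e : ζ =ᶠ[atTop] η) : Orb ξ ζ := by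
  obtain ⟨N, hN⟩ := eventually_atTop.1 e
  have : ζ.drop N = η.drop N := Stream'.ext fun n => by rw [get_drop, get_drop]; exact hN _ (by omega)
  rw [← append_take_drop N ζ, this]
  exact conn ξ N _ (η.take N) _ (by simp) (by simp) (by rwa [append_take_drop])

end Pool.Agent.H.MP_9fe7bd_lc
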