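import Mathlib
import Pool.Agent.H.MP_9fe7bd_lc.A
import Pool.Agent.Lib.helper21.PR
import Pool.Agent.Lib.helper21.CPred

set_option autoImplicit false

namespace Pool.Agent.H.MP_9fe7bd_lc

open Filter Pool.Agent.Lib.helper21

abbrev In := ℕ × List (List (ℕ × ℕ))
abbrev Tp := ℕ × ℕ × ℕ

def Valid (I : In) (n : ℕ) (τ : List (Fin 4) → ℕ) : Prop := ∀ w : List (Fin 4), w.length = n → τ w < I.1 ∧
  ∀ s : Fin 2, w ≠ List.replicate n (car s) → (τ w, τ (S s w)) ∈ I.2.getD s []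

def bd (n : ℕ) (τ : List (Fin 4) → ℕ) : Tp := (τ (List.replicate n 0), τ (List.replicate n 2), τ (List.replicate n 1))

@[irreducible] def al (k : ℕ) : List Tp := (List.range k).flatMap fun a => (List.range k).flatMap fun b => (List.range k).map fun c => (a, b, c)

@[irreducible] def M (I : In) (s a b : ℕ) : Prop := (a, b) ∈ I.2.getD s []

@[fun_prop] theorem M_prim {α : Type} [Primcodable α] {I : α → In} {a b : α → ℕ} (s : ℕ) (hI : Primrec I) (ha : Primrec a) (hb : Primrec b) :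
    Primrec fun x => PR.cd (M (I x) s (a x) (b x)) := by
  unfold M
  fun_prop

@[fun_prop] theorem al_prim : Primrec al := by
  unfold al
  fun_prop

@[irreducible] def Cn (I : In) (r0 r1 r2 r3 : Tp) : Prop :=
  (M I 0 r0.2.1 r1.1 ∧ M I 0 r1.2.1 r2.1 ∧ M I 0 r3.2.1 r3.1) ∧ M I 1 r0.2.2 r0.2.2 ∧ M I 1 r2.2.2 r3.2.2 ∧ M I 1 r3.2.2 r2.2.2

theorem Cn_prim0 : Primrec fun x : In × Tp × Tp × Tp × Tp => PR.cd (Cn x.1 x.2.1 x.2.2.1 x.2.2.2.1 x.2.2.2.2) := by
  unfold Cn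
  fun_prop

@[fun_prop] theorem Cn_prim {α : Type} [Primcodable α] {I : α → In} {a b c d : α → Tp} (hI : Primrec I) (ha : Primrec a) (hb : Primrec b)
    (hc : Primrec c) (hd : Primrec d) : Primrec fun x => PR.cd (Cn (I x) (a x) (b x) (c x) (d x)) :=
  Cn_prim0.comp (hI.pair (ha.pair (hb.pair (hc.pair hd))))

@[irreducible] noncomputable def step (I : In) (P : List Tp) : List Tp := (al I.1).filter fun r => PR.cd (∃ r0 ∈ P, ∃ r1 ∈ P, ∃ r2 ∈ P, ∃ r3 ∈ P,
  Cn I r0 r1 r2 r3 ∧ r = (r0.1, r2.2.1, r1.2.2))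

theorem step_prim : Primrec fun x : In × List Tp => step x.1 x.2 := by
  unfold step
  refine PR.p_filter (g := fun (x : In × List Tp) r => PR.cd (∃ r0 ∈ x.2, ∃ r1 ∈ x.2, ∃ r2 ∈ x.2, ∃ r3 ∈ x.2,
    Cn x.1 r0 r1 r2 r3 ∧ r = (r0.1, r2.2.1, r1.2.2))) ?_ (al_prim.comp (Primrec.fst.comp .fst))
  refine PR.p_exists (α := (In × List Tp) × Tp) (l := fun x => x.1.2) (P := fun x r0 => ∃ r1 ∈ x.1.2, ∃ r2 ∈ x.1.2, ∃ r3 ∈ x.1.2,
    Cn x.1.1 r0 r1 r2 r3 ∧ x.2 = (r0.1, r2.2.1, r1.2.2)) ?_ (by fun_prop)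
  refine PR.p_exists (α := ((In × List Tp) × Tp) × Tp) (l := fun x => x.1.1.2) (P := fun x r1 => ∃ r2 ∈ x.1.1.2, ∃ r3 ∈ x.1.1.2,
    Cn x.1.1.1 x.2 r1 r2 r3 ∧ x.1.2 = (x.2.1, r2.2.1, r1.2.2)) ?_ (by fun_prop)
  refine PR.p_exists (α := (((In × List Tp) × Tp) × Tp) × Tp) (l := fun x => x.1.1.1.2) (P := fun x r2 => ∃ r3 ∈ x.1.1.1.2,
    Cn x.1.1.1.1 x.1.2 x.2 r2 r3 ∧ x.1.1.2 = (x.1.2.1, r2.2.1, x.2.2.2)) ?_ (by fun_prop)
  refine PR.p_exists (α := ((((In × List Tp) × Tp) × Tp) × Tp) × Tp) (l := fun x => x.1.1.1.1.2) (P := fun x r3 =>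
    Cn x.1.1.1.1.1 x.1.1.2 x.1.2 x.2 r3 ∧ x.1.1.1.2 = (x.1.1.2.1, x.2.2.1, x.1.2.2.2)) ?_ (by fun_prop)
  exact PR.dec ((PR.pred (Cn_prim (by fun_prop) (by fun_prop) (by fun_prop) (by fun_prop) (by fun_prop))).and
    (PR.pred (PR.p_eq (by fun_prop) (by fun_prop))))

@[irreducible] noncomputable def L0 (k : ℕ) := (al k).filter fun r => PR.cd (r.1 = r.2.1 ∧ r.1 = r.2.2)

theorem L0_prim : Primrec L0 := by
  unfold L0
  exact PR.p_filter (g := fun _ (r : Tp) => PR.cd (r.1 = r.2.1 ∧ r.1 = r.2.2)) (by fun_prop) al_prim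

@[irreducible] noncomputable def LL (I : In) (n : ℕ) : List Tp := (step I)^[n] (L0 I.1)

theorem LL_prim : Primrec fun p : In × ℕ => LL p.1 p.2 := by
  unfold LL
  exact PR.p_iterate (h := fun p : In × ℕ => step p.1) .snd (L0_prim.comp (Primrec.fst.comp .fst)) (step_prim.comp ((Primrec.fst.comp .fst).pair .snd))

theorem LL_succ (I n) : LL I (n + 1) = step I (LL I n) := by rw [LL, LL, Function.iterate_succ_apply']

theorem mem_al (k) (r : Tp) : r ∈ al k ↔ r.1 < k ∧ r.2.1 < k ∧ r.2.2 < k := by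
  obtain ⟨a, b, c⟩ := r
  simp [al]

theorem rep_succ (n) (x : Fin 4) : List.replicate (n + 1) x = List.replicate n x ++ [x] := List.replicate_succ'

theorem S_end (s n x) (h : x ≠ car s) : S s (List.replicate n (car s) ++ [x]) = List.replicate n (pi s (car s)) ++ [pi s x] := by
  rw [S_rep, S_cons, if_neg h]

theorem mem_LL (I n r) : r ∈ LL I n ↔ ∃ τ, Valid I n τ ∧ r = bd n τ := by
  induction n generalizing r with
  | zero =>
    simp only [LL, L0, Function.iterate_zero, id, List.mem_filter, mem_al, PR.cd_true]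
    constructor
    · rintro ⟨h, a, b⟩
      exact ⟨fun _ => r.1, fun w hw => ⟨h.1, fun s e => (e (List.length_eq_zero_iff.1 hw)).elim⟩, Prod.ext rfl (Prod.ext a.symm b.symm)⟩
    · rintro ⟨τ, h, rfl⟩
      exact ⟨⟨(h _ rfl).1, (h _ rfl).1, (h _ rfl).1⟩, rfl, rfl⟩
  | succ n ih =>
    rw [LL_succ, step]
    simp only [List.mem_filter, mem_al, PR.cd_true, ih, Cn, M]
    constructor
    · rintro ⟨-, _, ⟨t0, v0, rfl⟩, _, ⟨t1, v1, rfl⟩, _, ⟨t2, v2, rfl⟩, _, ⟨t3, v3, rfl⟩, ⟨⟨a0, a1, a3⟩, b0, b2, b3⟩, rfl⟩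
      let t : Fin 4 → List (Fin 4) → ℕ := ![t0, t1, t2, t3]
      have v : ∀ x, Valid I n (t x) := fun x => by fin_cases x <;> assumption
      have e : ∀ w x, t ((w ++ [x]).getLastD 0) (w ++ [x]).dropLast = t x w := fun w x => by simp
      refine ⟨fun w => t (w.getLastD 0) w.dropLast, fun w hw => ?_, by simp only [bd, rep_succ, e]; rfl⟩
      obtain rfl | ⟨u, x, rfl⟩ := w.eq_nil_or_concat'
      · simp at hw
      have hu : u.length = n := by simpa using hw
      refine ⟨by simpa using (v x u hu).1, fun s h => ?_⟩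
      by_cases c : u = List.replicate n (car s)
      · have hx : x ≠ car s := fun y => h (by rw [rep_succ, c, y])
        simp only [c, S_end s n x hx, e]
        fin_cases s <;> fin_cases x <;> first | assumption | exact absurd rfl hx
      · simp only [S_app s u _ (hu ▸ c), e]
        exact (v x u hu).2 s c
    · rintro ⟨τ, h, rfl⟩
      have v : ∀ x, Valid I n fun w => τ (w ++ [x]) := fun x w hw => ⟨(h _ (by simp [hw])).1, fun s c => by
        have := (h (w ++ [x]) (by simp [hw])).2 s fun e => c (by rw [rep_succ] at e; exact (List.append_inj' e rfl).1)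
        rwa [S_app s w _ (hw ▸ c)] at this⟩
      have k : ∀ s x, x ≠ car s → (τ (List.replicate n (car s) ++ [x]), τ (List.replicate n (pi s (car s)) ++ [pi s x])) ∈ I.2.getD s [] :=
        fun s x c => S_end s n x c ▸ (h _ (by simp)).2 s fun e => c (by rw [rep_succ] at e; simpa using e)
      exact ⟨⟨(h _ (by simp)).1, (h _ (by simp)).1, (h _ (by simp)).1⟩, _, ⟨_, v 0, rfl⟩, _, ⟨_, v 1, rfl⟩, _, ⟨_, v 2, rfl⟩, _, ⟨_, v 3, rfl⟩,
        ⟨⟨k 0 0 (by decide), k 0 1 (by decide), k 0 3 (by decide)⟩, k 1 0 (by decide), k 1 2 (by decide), k 1 3 (by decide)⟩,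
        by simp only [bd, rep_succ]⟩

theorem dec_all (c : In → List Tp → Prop) (hc : PrimrecPred fun p : In × List Tp => c p.1 p.2) :
    ComputablePred fun I => ∀ n, c I (LL I n) := by
  have h1 : ComputablePred fun p : In × ℕ => c p.1 (LL p.1 p.2) := CPred.cprim (hc.comp (Primrec.fst.pair LL_prim))
  refine ComputablePred.computable_iff_re_compl_re'.2 ⟨?_, (CPred.cre (p := fun I n => ¬ c I (LL I n)) h1.not).of_eq fun I => by simp⟩
  have h2 : ComputablePred fun p : (In × ℕ) × ℕ => LL p.1.1 p.2 = LL p.1.1 p.1.2 :=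
    CPred.ceq (LL_prim.comp ((Primrec.fst.comp .fst).pair .snd)).to_comp (LL_prim.comp .fst).to_comp
  refine (CPred.cre (p := fun I j => (∃ i < j, LL I i = LL I j) ∧ ∀ n < j, c I (LL I n)) (CPred.cand
    (CPred.cex (p := fun (p : In × ℕ) i => LL p.1 i = LL p.1 p.2) h2 .snd) (CPred.call (p := fun (p : In × ℕ) n => c p.1 (LL p.1 n))
      (CPred.ccomp h1 ((Computable.fst.comp .fst).pair .snd)) .snd))).of_eq fun I => ⟨?_, fun h => ?_⟩
  · rintro ⟨j, ⟨i, hi, e⟩, h⟩ n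
    suffices ∃ m < j, LL I n = LL I m from this.elim fun m a => a.2 ▸ h m a.1
    induction n with
    | zero => exact ⟨0, by omega, rfl⟩
    | succ n ih =>
      obtain ⟨m, a, b⟩ := ih
      have : LL I (n + 1) = LL I (m + 1) := by rw [LL_succ, LL_succ, b]
      by_cases x : m + 1 = j
      · exact ⟨i, hi, by rw [this, x, e]⟩
      · exact ⟨m + 1, by omega, this⟩
  · obtain ⟨i, j, a, b⟩ := Set.Finite.exists_lt_map_eq_of_forall_mem (f := LL I) (t := {l | l ∈ (al I.1).sublists}) (fun n => by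
      cases n with
      | zero => rw [LL, Function.iterate_zero, id, L0]; exact List.mem_sublists.2 List.filter_sublist
      | succ n => rw [LL_succ, step]; exact List.mem_sublists.2 List.filter_sublist) (List.finite_toSet _)
    exact ⟨j, ⟨i, a, b⟩, fun n _ => h n⟩

theorem lim (I : In) (τ : ℕ → List (Fin 4) → ℕ) (h : ∀ n, Valid I n (τ n)) : ∃ σ : Stream' (Fin 4) → ℕ,
    (∀ η, σ η < I.1 ∧ ∀ s : Fin 2, η ≠ .const (car s) → (σ η, σ (T s η)) ∈ I.2.getD s []) ∧
    ∀ η, ∀ᶠ n in (hyperfilter ℕ : Filter ℕ), τ n (η.take n) = σ η := by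
  have : ∀ η : Stream' (Fin 4), ∃ c < I.1, ∀ᶠ n in (hyperfilter ℕ : Filter ℕ), τ n (η.take n) = c := fun η =>
    (Ultrafilter.eventually_exists_mem_iff (Set.finite_lt_nat I.1)).1 (.of_forall fun n => ⟨_, (h n _ (by simp)).1, rfl⟩)
  choose σ h1 h2 using this
  refine ⟨σ, fun η => ⟨h1 η, fun s e => ?_⟩, h2⟩
  obtain ⟨n, a, b, c⟩ := ((h2 η).and ((h2 (T s η)).and ((ne_rep e).filter_mono Nat.hyperfilter_le_atTop))).exists
  rw [← a, ← b, take_T]
  exact (h n _ (by simp)).2 s c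

def Til (ξ : Stream' (Fin 4)) (I : In) : Prop :=
  ∃ τ : Stream' (Fin 4) → ℕ, ∀ η, Orb ξ η → τ η < I.1 ∧ ∀ s : Fin 2, (τ η, τ (T s η)) ∈ I.2.getD s []

theorem til_valid {ξ I} {τ : Stream' (Fin 4) → ℕ} (h : ∀ η, Orb ξ η → τ η < I.1 ∧ ∀ s : Fin 2, (τ η, τ (T s η)) ∈ I.2.getD s []) {η} (o : Orb ξ η)
    (n : ℕ) : bd n (fun w => τ (w ++ₛ η.drop n)) ∈ LL I n := (mem_LL _ _ _).2 ⟨_, fun w hw => by
  have := h (w ++ₛ η.drop n) (orb_ev o (hw ▸ app_ev w η))
  exact ⟨this.1, fun s e => by simpa only [T_app s w _ (hw ▸ e)] using this.2 s⟩, rfl⟩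

theorem pA : PrimrecPred fun p : In × List Tp => ∃ r ∈ p.2, ∃ r' ∈ p.2, M p.1 0 r.2.1 r'.1 :=
  PR.pred (PR.p_exists (α := In × List Tp) (l := fun x => x.2) (P := fun x r => ∃ r' ∈ x.2, M x.1 0 r.2.1 r'.1)
    (PR.p_exists (α := (In × List Tp) × Tp) (l := fun x => x.1.2) (P := fun x r' => M x.1.1 0 x.2.2.1 r'.1)
      (M_prim 0 (by fun_prop) (by fun_prop) (by fun_prop)) (by fun_prop)) .snd)

theorem pB : PrimrecPred fun p : In × List Tp => ∃ r ∈ p.2, M p.1 1 r.2.2 r.2.2 :=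
  PR.pred (PR.p_exists (α := In × List Tp) (l := fun x => x.2) (P := fun x r => M x.1 1 r.2.2 r.2.2)
    (M_prim 1 (by fun_prop) (by fun_prop) (by fun_prop)) .snd)

theorem pC : PrimrecPred fun p : In × List Tp => ∃ r ∈ p.2, r = r :=
  PR.pred (PR.p_exists (α := In × List Tp) (l := fun x => x.2) (P := fun _ r => r = r) (PR.p_eq .snd .snd) .snd)

theorem const_ev {x y : Fin 4} (h : Stream'.const x =ᶠ[atTop] Stream'.const y) : x = y := h.exists.elim fun _ e => e

theorem domino (ξ) : DominoDecidable S ξ := by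
  classical
  suffices ComputablePred (Til ξ) from this.of_eq fun I => ⟨fun ⟨τ, h⟩ => ⟨fun v => τ v.1, fun v => (h _ v.2).1, fun s v w e =>
      by have := (h _ v.2).2 s; rwa [(mv_S _ _ _).1 e] at this⟩, fun ⟨τ, a, b⟩ => ⟨fun η => if h : Orb ξ η then τ ⟨η, h⟩ else 0, fun η o =>
      ⟨by simp only [dif_pos o]; exact a _, fun s => by
        simp only [dif_pos o, dif_pos ((orb_T ξ s η).2 o)]
        exact b s _ _ ((mv_S _ _ _).2 rfl)⟩⟩⟩
  have inv : ∀ (P : Fin 4 → Prop), (∀ s, P (pi s (car s)) ↔ P (car s)) → ∀ η, Orb ξ η →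
      ((∃ x, P x ∧ ξ =ᶠ[atTop] Stream'.const x) ↔ ∃ x, P x ∧ η =ᶠ[atTop] Stream'.const x) := fun P hP η o => by
    refine orb_ind (P := fun η => ∃ x, P x ∧ η =ᶠ[atTop] Stream'.const x) (fun s η => ?_) o
    by_cases e : η = .const (car s)
    · rw [e, T_const]
      exact ⟨fun ⟨x, a, b⟩ => ⟨_, (hP s).1 (const_ev b ▸ a), .rfl⟩, fun ⟨x, a, b⟩ => ⟨_, (hP s).2 (const_ev b ▸ a), .rfl⟩⟩
    · exact exists_congr fun x => and_congr_right fun _ => ⟨(T_ev s η e).symm.trans, (T_ev s η e).trans⟩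
  have iA := inv (fun x => x = 0 ∨ x = 2) (by decide)
  have iB := inv (· = 1) (by decide)
  by_cases cA : ∃ x, (x = 0 ∨ x = 2) ∧ ξ =ᶠ[atTop] Stream'.const x
  · have o2 : Orb ξ (.const 2) := by
      obtain ⟨x, rfl | rfl, h⟩ := cA
      · exact (orb_T ξ 0 _).1 ((T_const 0).symm ▸ orb_ev (orb_refl ξ) h.symm)
      · exact orb_ev (orb_refl ξ) h.symm
    have o0 : Orb ξ (.const 0) := (T_const 0 ▸ (orb_T ξ 0 _).2 o2 :)
    refine (dec_all (fun I P => ∃ r ∈ P, ∃ r' ∈ P, M I 0 r.2.1 r'.1) pA).of_eq fun I => ⟨fun h => ?_, ?_⟩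
    · simp only [mem_LL, M] at h
      choose _ a _ b c using h
      choose τ v e using a
      choose τ' v' e' using b
      obtain ⟨σ, a1, a2⟩ := lim I τ v
      obtain ⟨σ', b1, b2⟩ := lim I τ' v'
      refine ⟨fun η => if η =ᶠ[atTop] Stream'.const 2 then σ η else σ' η, fun η o => ⟨?_, fun s => ?_⟩⟩
      · simp only
        split_ifs
        exacts [(a1 η).1, (b1 η).1]
      by_cases x : η = .const (car s)
      · fin_cases s
        · obtain ⟨n, y, z⟩ := ((a2 (.const 2)).and (b2 (.const 0))).exists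
          have := c n
          rw [e, e'] at this
          simp only [bd, ← take_const, y, z] at this
          simp only [x, T_const]
          rw [if_pos (by rfl), if_neg fun h => absurd (const_ev h) (by decide)]
          exact this
        · obtain ⟨y, a, b⟩ := (iA η o).1 cA
          rw [x] at b
          rw [← const_ev b] at a
          exact absurd a (by decide)
      · have : T s η =ᶠ[atTop] Stream'.const 2 ↔ η =ᶠ[atTop] Stream'.const 2 := ⟨(T_ev s η x).symm.trans, (T_ev s η x).trans⟩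
        simp only [this]
        split_ifs
        exacts [(a1 η).2 s x, (b1 η).2 s x]
    · rintro ⟨τ, h⟩ n
      refine ⟨_, til_valid h o2 n, _, til_valid h o0 n, ?_⟩
      simp only [M, bd, Stream'.drop_const, rep_const]
      exact (T_const 0 ▸ (h _ o2).2 0 :)
  have nA : ∀ η, Orb ξ η → η ≠ .const (car 0) := fun η o e => cA ((iA η o).2 ⟨2, Or.inr rfl, e ▸ .rfl⟩)
  by_cases cB : ∃ x, x = 1 ∧ ξ =ᶠ[atTop] Stream'.const x
  · obtain ⟨_, rfl, cB⟩ := cB
    have o1 : Orb ξ (.const 1) := orb_ev (orb_refl ξ) cB.symm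
    refine (dec_all (fun I P => ∃ r ∈ P, M I 1 r.2.2 r.2.2) pB).of_eq fun I => ⟨fun h => ?_, ?_⟩
    · simp only [mem_LL, M] at h
      choose _ a c using h
      choose τ v e using a
      obtain ⟨σ, a1, a2⟩ := lim I τ v
      refine ⟨σ, fun η o => ⟨(a1 η).1, fun s => ?_⟩⟩
      by_cases x : η = .const (car s)
      · fin_cases s
        · exact absurd x (nA η o)
        · obtain ⟨n, y⟩ := (a2 (.const 1)).exists
          have := c n
          rw [e] at this
          simp only [bd, ← take_const, y] at this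
          simp only [x, T_const]
          exact this
      · exact (a1 η).2 s x
    · rintro ⟨τ, h⟩ n
      refine ⟨_, til_valid h o1 n, ?_⟩
      simp only [M, bd, Stream'.drop_const, rep_const]
      exact (T_const 1 ▸ (h _ o1).2 1 :)
  · refine (dec_all (fun _ P => ∃ r ∈ P, r = r) pC).of_eq fun I => ⟨fun h => ?_, ?_⟩
    · simp only [mem_LL, M] at h
      choose _ a _ using h
      choose τ v e using a
      obtain ⟨σ, a1, -⟩ := lim I τ v
      refine ⟨σ, fun η o => ⟨(a1 η).1, fun s => (a1 η).2 s ?_⟩⟩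
      fin_cases s
      · exact nA η o
      · exact fun e => cB ((iB η o).2 ⟨1, rfl, e ▸ .rfl⟩)
    · rintro ⟨τ, h⟩ n
      exact ⟨_, til_valid h (orb_refl ξ) n, rfl⟩

end Pool.Agent.H.MP_9fe7bd_lc
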