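import Mathlib
import Pool.Agent.H.MP_9fe7bd_lc.A

set_option autoImplicit false

namespace Pool.Agent.H.MP_9fe7bd_lc

open Filter Stream' Function

theorem code_inj {r n m : ℕ} (φ : Fm r n m) : ∀ ψ : Fm r n m, φ.code = ψ.code → φ = ψ := by
  induction φ <;> intro ψ h <;> cases ψ <;> simp_all [Fm.code, Nat.pair_eq_pair, Fin.val_inj]
  all_goals grind

def imp {n m : ℕ} (φ ψ : Fm 2 n m) : Fm 2 n m := .not (.and φ (.not ψ))

def all {n m : ℕ} (φ : Fm 2 (n + 1) m) : Fm 2 n m := .not (.exP (.not φ))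

def J : ℕ → (n : ℕ) → Fm 2 (n + 1) 2
  | 0, _ => .mem 0 1
  | k + 1, n => .and (.not (.mem 0 0)) (.exP (.and (.edge 0 1 0) (J k (n + 1))))

def phi (m : ℕ) : Fm 2 0 0 := .exS (.exS (.and (.exP (.mem 0 0)) (.and
  (all (imp (.mem 0 0) (all (imp (.edge 1 1 0) (.and (.not (.mem 0 0)) (.not (.exS (.and (.mem 0 0) (.and
    (all (imp (.mem 0 0) (all (imp (.edge 0 1 0) (.mem 0 0))))) (.not (.exP (.and (.mem 0 0) (.mem 0 1)))))))))))))
  (.and (all (imp (.mem 0 0) (all (imp (.edge 0 1 0) (.mem 0 1))))) (all (imp (.mem 0 1) (imp (.not (.mem 0 0)) (J m 0))))))))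

def Rest {V : Type} (a b : V → V) (m : ℕ) (C E : Set V) : Prop := (∀ v ∈ E, b v ∉ E ∧ ∃ k, a^[k] (b v) ∈ E) ∧ (∀ v ∈ E, a v ∈ C) ∧
  ∀ v ∈ C, v ∉ E → a^[m] v ∈ C ∧ ∀ i < m, a^[i] v ∉ E

theorem J_sat {V : Type} (f : Fin 2 → V → V) (Y : Fin 2 → Set V) (k : ℕ) : ∀ n (x : Fin (n + 1) → V),
    (J k n).Sat (fun s v w => f s v = w) x Y ↔ (f 0)^[k] (x 0) ∈ Y 1 ∧ ∀ i < k, (f 0)^[i] (x 0) ∉ Y 0 := by
  induction k with
  | zero => simp [J, Fm.Sat]
  | succ k ih => simp only [Nat.forall_lt_succ_left]; simp [J, Fm.Sat, ih, and_left_comm]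

theorem phi_sat {V : Type} (f : Fin 2 → V → V) (m : ℕ) : (phi m).Sat (fun s v w => f s v = w) Fin.elim0 Fin.elim0 ↔
    ∃ C E : Set V, (∃ v, v ∈ E) ∧ Rest (f 0) (f 1) m C E := by
  have k : ∀ (E : Set V) w, (∀ Y : Set V, w ∈ Y → (∀ s ∈ Y, f 0 s ∈ Y) → ∃ u ∈ Y, u ∈ E) ↔ ∃ k, (f 0)^[k] w ∈ E := fun E w =>
    ⟨fun h => by
      obtain ⟨_, ⟨k, rfl⟩, e⟩ := h (Set.range fun k => (f 0)^[k] w) ⟨0, rfl⟩ (by rintro _ ⟨k, rfl⟩; exact ⟨k + 1, iterate_succ_apply' _ _ _⟩)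
      exact ⟨k, e⟩,
    fun ⟨k, e⟩ Y a b => ⟨_, (show ∀ k, (f 0)^[k] w ∈ Y from fun k => by
      induction k with
      | zero => exact a
      | succ k ih => rw [iterate_succ_apply']; exact b _ ih) k, e⟩⟩
  simp [phi, imp, all, Fm.Sat, J_sat, Rest, ← k]

def ex (j : ℕ) (x : Fin 4) (η : Stream' (Fin 4)) : Stream' (Fin 4) := List.replicate j 1 ++ₛ x :: η

theorem ex_succ (j x η) : ex (j + 1) x η = 1 :: ex j x η := rfl

theorem ex_lt (j x η) : ∀ n < j, ex j x η n = 1 := by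
  induction j with
  | zero => simp
  | succ j ih => exact Nat.forall_lt_succ_left.2 ⟨rfl, ih⟩

theorem ex_eq (j x η) : ex j x η j = x := by
  induction j with
  | zero => rfl
  | succ j ih => exact ih

theorem ex_gt (j x y η) : ∀ n, j < n → ex j x η n = ex j y η n := by
  induction j with
  | zero => rintro (_ | n) h; exacts [absurd h (by simp), rfl]
  | succ j ih => rintro (_ | n) h; exacts [absurd h (by simp), ih n (by omega)]

theorem b_ex (j x η) (h : x ≠ 1) : T 1 (ex j x η) = ex j (pi 1 x) η := by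
  have := T_rep 1 j (x :: η)
  rwa [T_cons, if_neg (show x ≠ car 1 from h)] at this

theorem cls (v) (h : T 1 v ≠ v) : ∃ j η, v = ex j 2 η ∨ v = ex j 3 η := by
  classical
  have : ∃ n, v n ≠ 1 := by
    by_contra! c
    exact h (by rw [show v = const (car 1) from funext c, T_const]; rfl)
  obtain ⟨n, hn⟩ := this
  induction n generalizing v with
  | zero =>
    rw [← v.eta] at h
    replace hn : v.head ≠ 1 := hn
    have := b_ex 0 v.head v.tail hn
    have e : ∀ x : Fin 4, x ≠ 1 → pi 1 x ≠ x → x = 2 ∨ x = 3 := by decide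
    refine ⟨0, v.tail, (e _ hn fun c => h (by rw [c] at this; exact this)).imp ?_ ?_⟩ <;> exact fun c => c ▸ v.eta.symm
  | succ n ih =>
    by_cases c : v.head = 1
    · rw [← v.eta, c] at h
      obtain ⟨j, η, e⟩ := ih v.tail (fun x => h (by rw [T_cons, if_pos (by rfl), x]; rfl)) hn
      refine ⟨j + 1, η, e.imp ?_ ?_⟩ <;> exact fun e => by rw [ex_succ, ← e, ← c, Stream'.eta]
    · rw [← v.eta] at h
      have := b_ex 0 v.head v.tail c
      have e : ∀ x : Fin 4, x ≠ 1 → pi 1 x ≠ x → x = 2 ∨ x = 3 := by decide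
      refine ⟨0, v.tail, (e _ c fun c => h (by rw [c] at this; exact this)).imp ?_ ?_⟩ <;> exact fun c => c ▸ v.eta.symm

theorem pos1 (n) : ∀ v, T 0 v n = 3 ↔ v n = 3 := by
  induction n with
  | zero => intro v; rw [← v.eta, T_cons]; exact (by decide : ∀ x, pi 0 x = 3 ↔ x = 3) _
  | succ n ih =>
    intro v
    rw [← v.eta, T_cons]
    split_ifs
    exacts [ih _, .rfl]

theorem pos (k n v) : (T 0)^[k] v n = 3 ↔ v n = 3 := by
  induction k with
  | zero => rfl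
  | succ k ih => rw [iterate_succ_apply', pos1, ih]

theorem a0 (η) : T 0 (0 :: η) = 1 :: η := T_cons _ _ _
theorem a1 (η) : T 0 (1 :: η) = 2 :: η := T_cons _ _ _
theorem a2 (η) : T 0 (2 :: η) = 0 :: T 0 η := T_cons _ _ _
theorem a3 (η) : T 0 (3 :: η) = 3 :: η := T_cons _ _ _

theorem a3k (k η) : (T 0)^[3 * k] (1 :: η) = 1 :: (T 0)^[k] η := by
  induction k generalizing η with
  | zero => rfl
  | succ k ih => simp only [Nat.mul_succ, iterate_succ_apply, a0, a1, a2, ih]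

theorem L1 (n) : ∀ v : Stream' (Fin 4), v n = 3 → ∃ k j η, (T 0)^[k] v = ex j 3 η := by
  induction n with
  | zero => exact fun v h => ⟨0, 0, v.tail, h ▸ v.eta.symm⟩
  | succ n ih =>
    intro v h
    have k : ∀ i (η : Stream' (Fin 4)), η n = 3 → (T 0)^[i] v = 1 :: η → ∃ k j η, (T 0)^[k] v = ex j 3 η := fun i η a b =>
      let ⟨k, j, ζ, e⟩ := ih η a
      ⟨3 * k + i, j + 1, ζ, by rw [iterate_add_apply, b, a3k, e, ex_succ]⟩
    have e := v.eta.symm
    generalize v.head = x at e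
    fin_cases x
    · exact k 1 v.tail h (by rw [e]; exact a0 _)
    · exact k 0 v.tail h e
    · exact k 2 (T 0 v.tail) ((pos1 _ _).2 h) (by rw [e]; exact (congrArg _ (a2 _)).trans (a0 _))
    · exact ⟨0, 0, _, e⟩

theorem L2 (j η) : (T 0)^[3 ^ j] (ex j 3 η) = ex j 3 η := by
  induction j with
  | zero => exact a3 η
  | succ j ih => rw [pow_succ', ex_succ, a3k, ih]

theorem L3 (j η) : ∀ k l ζ, (T 0)^[k] (ex j 3 η) = ex l 3 ζ → 3 ^ j ∣ k := by
  induction j with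
  | zero => simp
  | succ j ih =>
    intro k l ζ h
    rw [← Nat.mod_add_div k 3, iterate_add_apply, ex_succ, a3k] at h
    have h0 := congrFun h 0
    have : ex l 3 ζ 0 = 1 ∨ ex l 3 ζ 0 = 3 := by cases l <;> simp [ex_lt, ex_eq]
    obtain e | e | e : k % 3 = 0 ∨ k % 3 = 1 ∨ k % 3 = 2 := by omega
    · rw [e] at h
      cases l with
      | zero => exact absurd (congrFun h 0) (show (1 : Fin 4) ≠ 3 by decide)
      | succ l =>
        rw [← Nat.mod_add_div k 3, e, zero_add, pow_succ']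
        exact Nat.mul_dvd_mul_left _ (ih _ l ζ (congrArg tail h))
    · rw [e, iterate_one, a1] at h0
      rw [← h0] at this
      exact absurd this (show ¬ ((2 : Fin 4) = 1 ∨ (2 : Fin 4) = 3) by decide)
    · rw [e, iterate_succ_apply, iterate_one, a1, a2] at h0
      rw [← h0] at this
      exact absurd this (show ¬ ((0 : Fin 4) = 1 ∨ (0 : Fin 4) = 3) by decide)

theorem fwd {m : ℕ} (hm : 0 < m) {C E} (h : Rest (T 0) (T 1) m C E) : ∀ v ∈ E, ∀ j, v j = 3 → m ∣ 3 ^ j - 1 := by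
  obtain ⟨h1, h2, h3⟩ := h
  have c0 : ∀ v ∈ E, ∃ j η, v = ex j 2 η ∨ v = ex j 3 η := fun v a => cls v fun e => (h1 v a).1 (e.symm ▸ a)
  have c1 : ∀ i η, ex i 2 η ∉ E := fun i => by
    induction i using Nat.strong_induction_on with | _ i ih => ?_
    intro η a
    obtain ⟨x, k, y⟩ := h1 _ a
    rw [b_ex _ _ _ (by decide), show pi 1 2 = 3 by decide] at x y
    obtain ⟨l, ζ, e | e⟩ := c0 _ y
    · have := (pos k i _).2 (ex_eq i 3 η)
      rw [e] at this y
      rcases lt_trichotomy l i with c | rfl | c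
      · exact ih l c ζ y
      · exact absurd ((ex_eq _ _ _).symm.trans this) (by decide)
      · exact absurd ((ex_lt _ _ _ _ c).symm.trans this) (by decide)
    · obtain ⟨t, rfl⟩ := L3 _ _ _ _ _ e
      rw [iterate_mul, iterate_fixed (L2 i η)] at y
      exact x y
  have c2 : ∀ v ∈ E, ∃ j η, v = ex j 3 η := fun v a => let ⟨j, η, e⟩ := c0 v a; ⟨j, η, e.resolve_left fun e => c1 j η (e ▸ a)⟩
  have c3 : ∀ j η, ex j 3 η ∈ E → m ∣ 3 ^ j - 1 := fun j η a => by
    have n : ∀ k, 0 < k → k < 3 ^ j → (T 0)^[k] (ex j 3 η) ∉ E := fun k x y z =>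
      let ⟨_, _, e⟩ := c2 _ z; absurd (Nat.le_of_dvd x (L3 _ _ _ _ _ e)) (by omega)
    have q : ∀ t, m * t + 1 ≤ 3 ^ j → (T 0)^[m * t + 1] (ex j 3 η) ∈ C := fun t => by
      induction t with
      | zero => exact fun _ => h2 _ a
      | succ t ih =>
        intro x
        rw [Nat.mul_succ] at x
        rw [show m * (t + 1) + 1 = m + (m * t + 1) by ring, iterate_add_apply]
        exact (h3 _ (ih (by omega)) (n _ (by omega) (by omega))).1
    by_contra x
    have e := Nat.mod_add_div (3 ^ j - 1) m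
    have : 0 < 3 ^ j := by positivity
    have r := Nat.pos_of_ne_zero (mt Nat.dvd_of_mod_eq_zero x)
    refine (h3 _ (q ((3 ^ j - 1) / m) (by omega)) (n _ (by omega) (by omega))).2 _ (Nat.mod_lt (3 ^ j - 1) hm) ?_
    rwa [← iterate_add_apply, show (3 ^ j - 1) % m + (m * ((3 ^ j - 1) / m) + 1) = 3 ^ j by omega, L2]
  intro v a j
  obtain ⟨i, η, rfl⟩ := c2 v a
  induction hd : j - i using Nat.strong_induction_on generalizing i η with | _ d ih => ?_
  intro x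
  rcases lt_trichotomy i j with c | rfl | c
  · obtain ⟨-, k, y⟩ := h1 _ a
    rw [b_ex _ _ _ (by decide), show pi 1 3 = 2 by decide] at y
    obtain ⟨l, ζ, e⟩ := c2 _ y
    have z := (pos k l _).1 (e ▸ ex_eq l 3 ζ)
    have : i < l := by
      rcases lt_trichotomy i l with c | rfl | c
      · exact c
      · exact absurd ((ex_eq _ _ _).symm.trans z) (by decide)
      · exact absurd ((ex_lt _ _ _ _ c).symm.trans z) (by decide)
    exact ih (j - l) (by omega) l ζ (e ▸ y) rfl (e ▸ (pos k j _).2 ((ex_gt _ _ _ _ _ c).trans x))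
  · exact c3 _ _ a
  · exact absurd ((ex_lt _ _ _ _ c).symm.trans x) (by decide)

def EE (m : ℕ) : Set (Stream' (Fin 4)) := {v | (∃ j η, v = ex j 3 η) ∧ (∀ j, v j = 3 → m ∣ 3 ^ j - 1) ∧ ∀ n, ∃ j > n, v j = 3}

theorem bwd (m : ℕ) : ∃ C, Rest (T 0) (T 1) m C (EE m) := by
  refine ⟨{v | ∃ j η t, ex j 3 η ∈ EE m ∧ m * t + 1 ≤ 3 ^ j ∧ v = (T 0)^[m * t + 1] (ex j 3 η)}, ?_, ?_, ?_⟩
  · rintro _ ⟨⟨j, η, rfl⟩, a, b⟩
    rw [b_ex _ _ _ (by decide), show pi 1 3 = 2 by decide]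
    have g : ∀ n, ex j 2 η n = 3 → ex j 3 η n = 3 := fun n x => by
      rcases lt_trichotomy j n with c | rfl | c
      · exact (ex_gt _ _ _ _ _ c).trans x
      · exact ex_eq _ _ _
      · exact absurd ((ex_lt _ _ _ _ c).symm.trans x) (by decide)
    constructor
    · rintro ⟨⟨l, ζ, e⟩, -⟩
      rcases lt_trichotomy j l with c | rfl | c
      · exact absurd ((ex_eq _ _ _).symm.trans ((congrFun e j).trans (ex_lt _ _ _ _ c))) (by decide)
      · exact absurd ((ex_eq _ _ _).symm.trans ((congrFun e j).trans (ex_eq _ _ _))) (by decide)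
      · exact absurd ((ex_lt _ _ _ _ c).symm.trans ((congrFun e l).trans (ex_eq _ _ _))) (by decide)
    · obtain ⟨n, x, y⟩ := b j
      obtain ⟨k, e⟩ := L1 n (ex j 2 η) ((ex_gt _ _ _ _ _ x).trans y)
      refine ⟨k, e, fun i z => a i (g i ((pos _ _ _).1 z)), fun i => ?_⟩
      obtain ⟨l, x, y⟩ := b (i + j)
      exact ⟨l, by omega, (pos _ _ _).2 ((ex_gt _ _ _ _ _ (by omega)).trans y)⟩
  · rintro v h
    obtain ⟨j, η, rfl⟩ := h.1
    exact ⟨j, η, 0, h, Nat.one_le_pow _ _ (by omega), rfl⟩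
  · rintro _ ⟨j, η, t, a, b, rfl⟩ c
    have : m * t + 1 ≠ 3 ^ j := fun e => c (by rwa [e, L2])
    obtain ⟨s, hs⟩ := a.2.1 j (ex_eq _ _ _)
    have : m * (t + 1) ≤ m * s := Nat.mul_le_mul_left _ (Nat.lt_of_mul_lt_mul_left (a := m) (by omega))
    refine ⟨⟨j, η, t + 1, a, by omega, by rw [← iterate_add_apply]; congr 1; ring⟩, fun i x ⟨⟨l, ζ, e⟩, _⟩ => ?_⟩
    rw [← iterate_add_apply] at e
    have := Nat.le_of_dvd (by omega) (L3 _ _ _ _ _ e)
    rw [Nat.mul_succ] at *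
    omega

def fV (ξ : Stream' (Fin 4)) (s : Fin 2) (v : Vx S ξ) : Vx S ξ := ⟨T s v.1, (orb_T ξ s _).2 v.2⟩

theorem fV_it (ξ s k) (v : Vx S ξ) : ((fV ξ s)^[k] v).1 = (T s)^[k] v.1 := by
  induction k with
  | zero => rfl
  | succ k ih => rw [iterate_succ_apply', iterate_succ_apply', ← ih]; rfl

theorem sat_iff {m : ℕ} (hm : 0 < m) (ξ : Stream' (Fin 4)) (h3 : ∀ n, ∃ j > n, ξ j = 3) :
    (phi m).Sat (fun s (v w : Vx S ξ) => Mv (S s) v.1 w.1) Fin.elim0 Fin.elim0 ↔ ∀ᶠ j in atTop, ξ j = 3 → m ∣ 3 ^ j - 1 := by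
  rw [show (fun s (v w : Vx S ξ) => Mv (S s) v.1 w.1) = fun s v w => fV ξ s v = w from
    funext₃ fun s v w => propext ((mv_S _ _ _).trans ⟨fun h => Subtype.ext h, fun h => congrArg Subtype.val h⟩), phi_sat]
  constructor
  · rintro ⟨C, E, ⟨v, hv⟩, h1, h2, h4⟩
    have inj : ∀ (X : Set (Vx S ξ)) (w : Vx S ξ), w.1 ∈ (fun v : Vx S ξ => v.1) '' X ↔ w ∈ X := fun X w => Subtype.val_injective.mem_set_image
    have := fwd (C := (fun v : Vx S ξ => v.1) '' C) (E := (fun v : Vx S ξ => v.1) '' E) hm ⟨?_, ?_, ?_⟩ _ ⟨v, hv, rfl⟩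
    · have n : ∀ x : Fin 4, x ≠ 3 → ¬ const x =ᶠ[atTop] ξ := fun x a b => by
        obtain ⟨N, hN⟩ := eventually_atTop.1 b
        obtain ⟨j, c, d⟩ := h3 N
        exact a ((hN j c.le).trans d)
      have e : v.1 =ᶠ[atTop] ξ := (orb_ind (P := fun η => η =ᶠ[atTop] ξ) (fun s η => by
        by_cases e : η = const (car s)
        · rw [e, T_const]
          exact iff_of_false (n _ (by clear e; revert s; decide)) (n _ (by clear e; revert s; decide))
        · exact ⟨(T_ev s η e).symm.trans, (T_ev s η e).trans⟩) v.2).1 .rfl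
      exact e.mono fun j a b => this j (a.trans b)
    · rintro _ ⟨w, a, rfl⟩
      obtain ⟨x, k, y⟩ := h1 w a
      exact ⟨mt (inj E (fV ξ 1 w)).1 x, k, _, y, fV_it _ _ _ _⟩
    · rintro _ ⟨w, a, rfl⟩
      exact ⟨_, h2 w a, rfl⟩
    · rintro _ ⟨w, a, rfl⟩ b
      obtain ⟨x, y⟩ := h4 w a (mt (inj E w).2 b)
      exact ⟨⟨_, x, fV_it _ _ _ _⟩, fun i c => by rw [← fV_it, inj]; exact y i c⟩
  · intro h
    obtain ⟨N, hN⟩ := eventually_atTop.1 h
    obtain ⟨j, a, b⟩ := h3 N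
    obtain ⟨C, h1, h2, h4⟩ := bwd m
    have e : List.replicate j 1 ++ₛ ξ.drop j = ex j 3 (ξ.drop j).tail := by
      rw [ex, ← show (ξ.drop j).head = 3 from (head_drop _ _).trans b, Stream'.eta]
    have g : ∀ n, j ≤ n → ex j 3 (ξ.drop j).tail n = ξ n := fun n c => by
      obtain ⟨k, rfl⟩ := Nat.exists_eq_add_of_le c
      have := get_append_right k (List.replicate j (1 : Fin 4)) (ξ.drop j)
      rw [List.length_replicate, e, get_drop] at this
      exact this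
    refine ⟨{v | v.1 ∈ C}, {v | v.1 ∈ EE m}, ⟨⟨ex j 3 (ξ.drop j).tail, orb_ev (orb_refl ξ) (eventually_atTop.2 ⟨j, g⟩)⟩,
      ⟨_, _, rfl⟩, fun i c => ?_, fun n => ?_⟩, fun v c => ?_, fun v c => h2 _ c, fun v c d => ?_⟩
    · have : j ≤ i := not_lt.1 fun x => absurd ((ex_lt _ _ _ _ x).symm.trans c) (by decide)
      exact hN i (by omega) ((g i this).symm.trans c)
    · obtain ⟨l, x, y⟩ := h3 (n + j)
      exact ⟨l, by omega, (g l (by omega)).trans y⟩
    · simp only [Set.mem_ofPred_eq, fV_it]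
      exact h1 _ c
    · simp only [Set.mem_ofPred_eq, fV_it]
      exact h4 _ c d

open Classical in
noncomputable def jj (A : Set ℕ) (i : ℕ) : ℕ := ∏ k ∈ Finset.range i, Nat.nth Nat.Prime (2 * k + if k ∈ A then 1 else 0)

open Classical in
noncomputable def xi (A : Set ℕ) : Stream' (Fin 4) := fun j => if ∃ i, jj A i = j then 3 else 0

theorem xi_3 (A j) : xi A j = 3 ↔ ∃ i, jj A i = j := by simp [xi]

theorem jj_gt (A i) : i < jj A i := (Nat.lt_two_pow_self (n := i)).trans_le (by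
  rw [jj]
  simpa using Finset.pow_card_le_prod (Finset.range i) _ 2 fun k _ => (Nat.prime_nth_prime _).two_le)

theorem jj_dvd (A i k) : Nat.nth Nat.Prime (2 * k + 1) ∣ jj A i ↔ k < i ∧ k ∈ A := by
  rw [jj, (Nat.prime_nth_prime _).prime.dvd_finsetProd_iff]
  simp only [Nat.prime_dvd_prime_iff_eq (Nat.prime_nth_prime _) (Nat.prime_nth_prime _),
    (Nat.nth_injective Nat.infinite_setOfPred_prime).eq_iff, Finset.mem_range]
  refine ⟨fun ⟨a, x, y⟩ => ?_, fun ⟨x, y⟩ => ⟨k, x, by rw [if_pos y]⟩⟩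
  split_ifs at y with c
  · obtain rfl : k = a := by omega
    exact ⟨x, c⟩
  · omega

theorem dvd_iff (q j : ℕ) : 3 ^ q - 1 ∣ 3 ^ j - 1 ↔ q ∣ j := by
  rw [Nat.dvd_iff_mod_eq_zero, Nat.pow_sub_one_mod_pow_sub_one, Nat.dvd_iff_mod_eq_zero, Nat.sub_eq_zero_iff_le]
  exact ⟨fun h => by_contra fun e => absurd (Nat.one_lt_pow e (by omega)) (not_lt.2 h), fun h => by simp [h]⟩

theorem mso : ¬ ∀ ξ, MSODecidable S ξ := fun h => by
  choose c hc using fun A => Nat.Partrec.Code.exists_code.1 (h (xi A)).to_re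
  have key : ∀ A k, k ∈ A ↔ ∃ x, x ∈ (c A).eval (phi (3 ^ Nat.nth Nat.Prime (2 * k + 1) - 1)).code := fun A k => by
    have := sat_iff (m := 3 ^ Nat.nth Nat.Prime (2 * k + 1) - 1) (Nat.sub_pos_of_lt (Nat.one_lt_pow (Nat.prime_nth_prime _).ne_zero (by omega)))
      (xi A) fun n => ⟨_, jj_gt A n, (xi_3 _ _).2 ⟨n, rfl⟩⟩
    simp only [dvd_iff, xi_3, eventually_atTop] at this
    rw [hc]
    simp only [Encodable.decode_nat, Part.coe_some, Part.bind_some, Part.mem_map_iff, Part.mem_assert_iff]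
    constructor
    · exact fun a => ⟨_, (), ⟨⟨_, rfl, this.2 ⟨∑ i ∈ Finset.range (k + 1), jj A i + 1, by
        rintro _ x ⟨i, rfl⟩
        refine (jj_dvd _ _ _).2 ⟨not_le.1 fun y => ?_, a⟩
        exact absurd (Finset.single_le_sum (f := jj A) (fun _ _ => Nat.zero_le _) (Finset.mem_range.2 (Nat.lt_succ_of_le y))) (not_le.2 x)⟩⟩, Part.mem_some _⟩, rfl⟩
    · rintro ⟨_, _, ⟨⟨φ, a, b⟩, -⟩, -⟩
      rw [code_inj _ _ a] at b
      obtain ⟨N, hN⟩ := this.1 b
      exact ((jj_dvd _ _ _).1 (hN _ (jj_gt A N).le ⟨N, rfl⟩)).2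
  exact cantor_injective (fun A => Encodable.encode (c A)) fun A B e => Set.ext fun k => by
    rw [key, key, Encodable.encode_injective e]

end Pool.Agent.H.MP_9fe7bd_lc
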